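import Pool.Agent.N282.LU.Stm

/-!
# Project SR: Sarnak's conjecture for the Möbius function twisted by real characters, statements (helper282)
-/

set_option autoImplicit false

open Filter Topology Classical

namespace Pool.Agent.N282.SR

open Pool.Agent.N282.GC Pool.Agent.N282.LU

/-- tuples with square product, for all windows beyond the primorial of `H` -/
def S_TTP : Prop := ∀ k H n : ℕ, primorial H ≤ n → TT (2 * k) n H ≤ (2 * k) ^ k * H ^ k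

/-- from short sums to long sums -/
def S_LNG : Prop := ∀ b : ℕ → ℂ, (∀ n, ‖b n‖ ≤ 1) → ∀ H N : ℕ, 1 ≤ H →
  ‖∑ n ∈ Finset.Icc 1 N, b n‖ ≤ (∑ n ∈ Finset.Icc 1 N, ‖∑ h ∈ Finset.Icc 1 H, b (n + h)‖) / H + 2 * H

/-- partial summation -/
def S_ABL : Prop := ∀ b : ℕ → ℂ, (∀ n, ‖b n‖ ≤ 1) → ∀ (R N : ℕ) (ε : ℝ), 0 ≤ ε → 1 ≤ R → 1 ≤ N →
  (∀ M : ℕ, R ≤ M → M ≤ N → ‖∑ n ∈ Finset.Icc 1 M, b n‖ ≤ ε * M) →
  ‖∑ n ∈ Finset.Icc 1 N, b n / (n : ℂ)‖ ≤ 2 + Real.log R + ε * (2 + Real.log N)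

end Pool.Agent.N282.SR
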