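import Pool.Agent.N282.SR.Stm

/-!
# Project SR: two summation lemmas (helper409)
-/

set_option autoImplicit false

open Filter Topology Classical

namespace Pool.Agent.N282.SR

lemma Sum_tel (c : ℕ → ℂ) (N : ℕ) :
    ∑ n ∈ Finset.Icc 1 N, c (n + 1) - ∑ n ∈ Finset.Icc 1 N, c n = c (N + 1) - c 1 := by
  induction N with
  | zero => simp
  | succ N ih =>
    rw [Finset.sum_Icc_succ_top (by omega), Finset.sum_Icc_succ_top (by omega)]
    linear_combination ih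

lemma Sum_shift {b : ℕ → ℂ} (hb : ∀ n, ‖b n‖ ≤ 1) (N h : ℕ) :
    ‖∑ n ∈ Finset.Icc 1 N, b n - ∑ n ∈ Finset.Icc 1 N, b (n + h)‖ ≤ 2 * h := by
  induction h with
  | zero => simp
  | succ h ih =>
    have h1 := Sum_tel (fun n => b (n + h)) N
    have e : ∑ n ∈ Finset.Icc 1 N, b n - ∑ n ∈ Finset.Icc 1 N, b (n + (h + 1)) =
        (∑ n ∈ Finset.Icc 1 N, b n - ∑ n ∈ Finset.Icc 1 N, b (n + h)) -
          (b (N + 1 + h) - b (1 + h)) := by
      rw [← h1]
      have e2 : ∀ n, b (n + 1 + h) = b (n + (h + 1)) := by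
        intro n
        congr 1
        ring
      simp only [e2]
      ring
    rw [e]
    push_cast
    refine (norm_sub_le _ _).trans ?_
    have h2 : ‖b (N + 1 + h) - b (1 + h)‖ ≤ 2 := by
      refine (norm_sub_le _ _).trans ?_
      linarith [hb (N + 1 + h), hb (1 + h)]
    linarith

theorem t_LNG : S_LNG := by
  intro b hb H N hH
  have hH0 : (0 : ℝ) < H := by exact_mod_cast hH
  have h1 : (H : ℝ) * ‖∑ n ∈ Finset.Icc 1 N, b n‖ ≤
      ∑ n ∈ Finset.Icc 1 N, ‖∑ h ∈ Finset.Icc 1 H, b (n + h)‖ + H * (2 * H) := by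
    have e1 : (H : ℝ) * ‖∑ n ∈ Finset.Icc 1 N, b n‖ =
        ‖∑ _h ∈ Finset.Icc 1 H, ∑ n ∈ Finset.Icc 1 N, b n‖ := by
      rw [Finset.sum_const, Nat.card_Icc, nsmul_eq_mul, norm_mul, Complex.norm_natCast]
      simp
    have e2 : ∑ _h ∈ Finset.Icc 1 H, ∑ n ∈ Finset.Icc 1 N, b n =
        ∑ n ∈ Finset.Icc 1 N, ∑ h ∈ Finset.Icc 1 H, b (n + h) +
        ∑ h ∈ Finset.Icc 1 H, (∑ n ∈ Finset.Icc 1 N, b n - ∑ n ∈ Finset.Icc 1 N, b (n + h)) := by
      rw [Finset.sum_sub_distrib, Finset.sum_comm (s := Finset.Icc 1 N)]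
      ring
    rw [e1, e2]
    refine (norm_add_le _ _).trans (add_le_add (norm_sum_le _ _) ?_)
    refine (norm_sum_le _ _).trans ?_
    calc ∑ h ∈ Finset.Icc 1 H, ‖∑ n ∈ Finset.Icc 1 N, b n - ∑ n ∈ Finset.Icc 1 N, b (n + h)‖
        ≤ ∑ _h ∈ Finset.Icc 1 H, 2 * (H : ℝ) := by
          refine Finset.sum_le_sum fun h hh => (Sum_shift hb N h).trans ?_
          have : (h : ℝ) ≤ H := by exact_mod_cast (Finset.mem_Icc.1 hh).2
          linarith
      _ = H * (2 * H) := by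
          rw [Finset.sum_const, Nat.card_Icc, nsmul_eq_mul]
          simp
  have h2 : ‖∑ n ∈ Finset.Icc 1 N, b n‖ = (H * ‖∑ n ∈ Finset.Icc 1 N, b n‖) / H := by
    field_simp
  rw [h2]
  calc (H * ‖∑ n ∈ Finset.Icc 1 N, b n‖) / H
      ≤ (∑ n ∈ Finset.Icc 1 N, ‖∑ h ∈ Finset.Icc 1 H, b (n + h)‖ + H * (2 * H)) / H := by
        gcongr
    _ = _ := by
        field_simp

lemma Sum_harm (N : ℕ) : ∑ n ∈ Finset.Icc 1 N, (1 : ℝ) / n ≤ 1 + Real.log N := by
  have h1 := harmonic_le_one_add_log N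
  rw [harmonic_eq_sum_Icc] at h1
  push_cast at h1
  simpa [one_div] using h1

lemma Sum_ico (R : ℕ) : ∑ M ∈ Finset.Ico 1 R, (1 : ℝ) / ((M : ℝ) + 1) ≤
    ∑ n ∈ Finset.Icc 1 R, (1 : ℝ) / n := by
  induction R with
  | zero => simp
  | succ R ih =>
    rcases Nat.eq_zero_or_pos R with rfl | hR
    · simp
    · rw [Finset.sum_Ico_succ_top hR, Finset.sum_Icc_succ_top (by omega)]
      push_cast
      linarith

lemma Sum_abel (b : ℕ → ℂ) (N : ℕ) (hN : 1 ≤ N) :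
    ∑ n ∈ Finset.Icc 1 N, b n / (n : ℂ) = (∑ n ∈ Finset.Icc 1 N, b n) / N +
      ∑ M ∈ Finset.Ico 1 N, (∑ n ∈ Finset.Icc 1 M, b n) / ((M : ℂ) * (M + 1)) := by
  induction N, hN using Nat.le_induction with
  | base => simp
  | succ N hN ih =>
    have hN0 : (N : ℂ) ≠ 0 := by
      exact_mod_cast (by omega : N ≠ 0)
    have hN1 : ((N : ℂ) + 1) ≠ 0 := by
      exact_mod_cast (by omega : N + 1 ≠ 0)
    rw [Finset.sum_Icc_succ_top (by omega), ih, Finset.sum_Ico_succ_top hN,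
      Finset.sum_Icc_succ_top (by omega)]
    push_cast
    field_simp
    ring

theorem t_ABL : S_ABL := by
  intro b hb R N ε hε hR hN hA
  have htriv : ∀ M : ℕ, ‖∑ n ∈ Finset.Icc 1 M, b n‖ ≤ M := by
    intro M
    refine (norm_sum_le _ _).trans ?_
    calc ∑ n ∈ Finset.Icc 1 M, ‖b n‖ ≤ ∑ _n ∈ Finset.Icc 1 M, (1 : ℝ) :=
          Finset.sum_le_sum fun n _ => hb n
      _ = M := by simp
  have hN0 : (0 : ℝ) < N := by exact_mod_cast hN
  rw [Sum_abel b N hN]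
  have h1 : ‖(∑ n ∈ Finset.Icc 1 N, b n) / (N : ℂ)‖ ≤ 1 + ε := by
    rw [norm_div, Complex.norm_natCast, div_le_iff₀ hN0]
    have := htriv N
    nlinarith
  have h2 : ∀ M ∈ Finset.Ico 1 N,
      ‖(∑ n ∈ Finset.Icc 1 M, b n) / ((M : ℂ) * (M + 1))‖ ≤
        (if M < R then (1 : ℝ) / ((M : ℝ) + 1) else 0) + ε * (1 / ((M : ℝ) + 1)) := by
    intro M hM
    obtain ⟨hM1, hM2⟩ := Finset.mem_Ico.1 hM
    have hM0 : (0 : ℝ) < M := by exact_mod_cast hM1
    have e : ‖(M : ℂ) * (M + 1)‖ = (M : ℝ) * (M + 1) := by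
      rw [norm_mul, Complex.norm_natCast]
      congr 1
      have : ((M : ℂ) + 1) = ((M + 1 : ℕ) : ℂ) := by push_cast; ring
      rw [this, Complex.norm_natCast]
      push_cast
      ring
    rw [norm_div, e]
    split_ifs with hMR
    · have h3 := htriv M
      calc ‖∑ n ∈ Finset.Icc 1 M, b n‖ / ((M : ℝ) * (M + 1)) ≤ M / ((M : ℝ) * (M + 1)) := by
            gcongr
        _ = 1 / ((M : ℝ) + 1) := by field_simp
        _ ≤ 1 / ((M : ℝ) + 1) + ε * (1 / ((M : ℝ) + 1)) := by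
            have : 0 ≤ ε * (1 / ((M : ℝ) + 1)) := by positivity
            linarith
    · have h3 := hA M (by omega) hM2.le
      calc ‖∑ n ∈ Finset.Icc 1 M, b n‖ / ((M : ℝ) * (M + 1)) ≤ (ε * M) / ((M : ℝ) * (M + 1)) := by
            gcongr
        _ = 0 + ε * (1 / ((M : ℝ) + 1)) := by field_simp; ring
  have h3 : ∑ M ∈ Finset.Ico 1 N, (if M < R then (1 : ℝ) / ((M : ℝ) + 1) else 0) ≤
      1 + Real.log R := by
    rw [← Finset.sum_filter]
    refine (Finset.sum_le_sum_of_subset_of_nonneg (t := Finset.Ico 1 R) ?_ ?_).trans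
      ((Sum_ico R).trans (Sum_harm R))
    · intro M hM
      rw [Finset.mem_filter, Finset.mem_Ico] at hM
      exact Finset.mem_Ico.2 ⟨hM.1.1, hM.2⟩
    · intro M _ _
      positivity
  have h4 : ∑ M ∈ Finset.Ico 1 N, ε * (1 / ((M : ℝ) + 1)) ≤ ε * (1 + Real.log N) := by
    rw [← Finset.mul_sum]
    exact mul_le_mul_of_nonneg_left ((Sum_ico N).trans (Sum_harm N)) hε
  have h5 : ‖∑ M ∈ Finset.Ico 1 N, (∑ n ∈ Finset.Icc 1 M, b n) / ((M : ℂ) * (M + 1))‖ ≤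
      (1 + Real.log R) + ε * (1 + Real.log N) := by
    refine (norm_sum_le _ _).trans ((Finset.sum_le_sum h2).trans ?_)
    rw [Finset.sum_add_distrib]
    exact add_le_add h3 h4
  refine (norm_add_le _ _).trans ?_
  linarith

end Pool.Agent.N282.SR
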