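import Pool.Agent.N282.SR.Stm

/-! Project SR (helper282), leaf TTP (helper793): tuples with square product. -/

set_option autoImplicit false

open Filter Topology

namespace Pool.Agent.N282.SR

open Pool.Agent.N282.GC Pool.Agent.N282.LU

/-- private primes -/
theorem ttp_private {H n a : ℕ} (hn : primorial H ≤ n) (ha : n < a) (hs : Squarefree a) :
    ∃ p : ℕ, p.Prime ∧ H < p ∧ p ∣ a := by
  by_contra hc
  push Not at hc
  have h1 : a ∣ primorial H := by
    rw [← Nat.prod_primeFactors_of_squarefree hs]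
    unfold primorial
    refine Finset.prod_dvd_prod_of_subset _ _ _ fun p hp => ?_
    have hp' := Nat.prime_of_mem_primeFactors hp
    have hd := Nat.dvd_of_mem_primeFactors hp
    rw [Finset.mem_filter, Finset.mem_range]
    refine ⟨?_, hp'⟩
    by_contra h
    exact hc p hp' (by omega) hd
  have h2 := Nat.le_of_dvd (primorial_pos H) h1
  omega

theorem ttp_other {H n a b p : ℕ} (ha : a ∈ Finset.Ioc n (n + H)) (hb : b ∈ Finset.Ioc n (n + H)) (hab : a ≠ b)
    (hp : H < p) (hpa : p ∣ a) : ¬ p ∣ b := by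
  intro hpb
  rw [Finset.mem_Ioc] at ha hb
  have h1 : (p : ℤ) ∣ (a : ℤ) - b := dvd_sub (Int.natCast_dvd_natCast.2 hpa) (Int.natCast_dvd_natCast.2 hpb)
  have h2 : |(a : ℤ) - b| < p := by
    rw [abs_lt]
    constructor <;> omega
  have h3 := Int.eq_zero_of_abs_lt_dvd h1 h2
  omega

theorem ttp_sq {c x : ℕ} (hc : c ≠ 0) (h : IsSquare (c * (c * x))) : IsSquare x := by
  obtain ⟨y, hy⟩ := h
  have h1 : c ^ 2 ∣ y ^ 2 := ⟨x, by rw [sq y, ← hy]; ring⟩
  obtain ⟨z, rfl⟩ := (Nat.pow_dvd_pow_iff (by norm_num)).1 h1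
  refine ⟨z, ?_⟩
  have h2 : (c * c) * x = (c * c) * (z * z) := by
    rw [mul_assoc, hy]; ring
  exact Nat.eq_of_mul_eq_mul_left (Nat.mul_pos (Nat.pos_of_ne_zero hc) (Nat.pos_of_ne_zero hc)) h2

/-- the tuples -/
noncomputable def ttpT (A : Finset ℕ) (m : ℕ) : Finset (Fin m → ℕ) :=
  (Fintype.piFinset fun _ : Fin m => A).filter fun a => IsSquare (∏ i, a i)

theorem ttp_eq {H n m : ℕ} (hn : primorial H ≤ n) (A : Finset ℕ)
    (hA : ∀ a ∈ A, a ∈ Finset.Ioc n (n + H) ∧ Squarefree a) (a : Fin (m + 2) → ℕ) (ha : ∀ i, a i ∈ A)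
    (hsq : IsSquare (∏ i, a i)) : ∃ j : Fin (m + 1), a 0 = a j.succ := by
  by_contra hc
  push Not at hc
  obtain ⟨p, hp, hHp, hpa⟩ := ttp_private hn (Finset.mem_Ioc.1 (hA _ (ha 0)).1).1 (hA _ (ha 0)).2
  have h1 : ∀ j : Fin (m + 1), ¬ p ∣ a j.succ := fun j =>
    ttp_other (hA _ (ha 0)).1 (hA _ (ha j.succ)).1 (hc j) hHp hpa
  have h2 : ¬ p ∣ ∏ j : Fin (m + 1), a j.succ := by
    intro h
    obtain ⟨j, -, hj⟩ := (Prime.dvd_finset_prod_iff hp.prime _).1 h
    exact h1 j hj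
  obtain ⟨y, hy⟩ := hsq
  rw [Fin.prod_univ_succ] at hy
  have h3 : p ∣ y := by
    have h4 : p ∣ y * y := by rw [← hy]; exact Dvd.dvd.mul_right hpa _
    rcases hp.dvd_mul.1 h4 with h | h <;> exact h
  have h5 : p * p ∣ a 0 * ∏ j : Fin (m + 1), a j.succ := by
    rw [hy]; exact mul_dvd_mul h3 h3
  have h6 : Nat.Coprime (p * p) (∏ j : Fin (m + 1), a j.succ) := by
    have h7 := (Nat.Prime.coprime_iff_not_dvd hp).2 h2
    exact Nat.Coprime.mul_left h7 h7
  have h8 : p * p ∣ a 0 := h6.dvd_of_dvd_mul_right h5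
  have h9 := (hA _ (ha 0)).2 p h8
  exact hp.one_lt.ne' (Nat.isUnit_iff.1 h9)

theorem ttp_step {H n m : ℕ} (hn : primorial H ≤ n) (A : Finset ℕ)
    (hA : ∀ a ∈ A, a ∈ Finset.Ioc n (n + H) ∧ Squarefree a) :
    (ttpT A (m + 2)).card ≤ (m + 1) * A.card * (ttpT A m).card := by
  classical
  have hsub : ttpT A (m + 2) ⊆ ((Finset.univ : Finset (Fin (m + 1))) ×ˢ A ×ˢ ttpT A m).image
      (fun t => (Fin.cons t.2.1 (t.1.insertNth t.2.1 t.2.2 : Fin (m + 1) → ℕ) : Fin (m + 2) → ℕ)) := by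
    intro a ha
    unfold ttpT at ha
    rw [Finset.mem_filter, Fintype.mem_piFinset] at ha
    obtain ⟨h1, h2⟩ := ha
    obtain ⟨j, hj⟩ := ttp_eq hn A hA a h1 h2
    rw [Finset.mem_image]
    refine ⟨(j, a 0, j.removeNth (Fin.tail a)), ?_, ?_⟩
    · rw [Finset.mem_product, Finset.mem_product]
      refine ⟨Finset.mem_univ _, h1 0, ?_⟩
      unfold ttpT
      rw [Finset.mem_filter, Fintype.mem_piFinset]
      refine ⟨fun i => h1 _, ?_⟩
      rw [Fin.prod_univ_succ, Fin.prod_univ_succAbove _ j, ← hj] at h2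
      have h0 : a 0 ≠ 0 := (hA _ (h1 0)).2.ne_zero
      exact ttp_sq h0 h2
    · have h3 : (j.insertNth (a 0) (j.removeNth (Fin.tail a)) : Fin (m + 1) → ℕ) = Fin.tail a := by
        have h4 : a 0 = Fin.tail a j := hj
        rw [h4]
        exact Fin.insertNth_self_removeNth j (Fin.tail a)
      show (Fin.cons (a 0) (j.insertNth (a 0) (j.removeNth (Fin.tail a)) : Fin (m + 1) → ℕ) : Fin (m + 2) → ℕ) = a
      rw [h3]
      exact Fin.cons_self_tail a
  refine (Finset.card_le_card hsub).trans (Finset.card_image_le.trans ?_)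
  rw [Finset.card_product, Finset.card_product, Finset.card_univ, Fintype.card_fin, mul_assoc]

theorem t_TTP : S_TTP := by
  classical
  intro k H n hn
  obtain ⟨A, hA⟩ : ∃ A : Finset ℕ, A = (Finset.Ioc n (n + H)).filter Squarefree := ⟨_, rfl⟩
  have hA' : ∀ a ∈ A, a ∈ Finset.Ioc n (n + H) ∧ Squarefree a := by
    intro a ha
    rw [hA] at ha
    exact Finset.mem_filter.1 ha
  have hcard : A.card ≤ H := by
    rw [hA]
    refine (Finset.card_filter_le _ _).trans ?_
    rw [Nat.card_Ioc]; omega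
  have hTT : ∀ m, TT m n H = (ttpT A m).card := by
    intro m
    unfold TT ttpT
    congr 1
    ext a
    simp only [tup, Finset.mem_filter, Fintype.mem_piFinset, hA]
    constructor
    · rintro ⟨h1, h2, h3⟩
      exact ⟨fun i => ⟨h1 i, h2 i⟩, h3⟩
    · rintro ⟨h1, h3⟩
      exact ⟨fun i => (h1 i).1, fun i => (h1 i).2, h3⟩
  have key : ∀ k, (ttpT A (2 * k)).card ≤ (2 * k) ^ k * H ^ k := by
    intro k
    induction k with
    | zero =>
      unfold ttpT
      refine (Finset.card_filter_le _ _).trans ?_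
      simp
    | succ k ih =>
      have h1 := ttp_step (m := 2 * k) hn A hA'
      have h2 : 2 * (k + 1) = 2 * k + 2 := by ring
      rw [h2]
      refine h1.trans ?_
      calc (2 * k + 1) * A.card * (ttpT A (2 * k)).card
          ≤ (2 * k + 2) * H * ((2 * k + 2) ^ k * H ^ k) := by
            refine Nat.mul_le_mul (Nat.mul_le_mul (by omega) hcard) (ih.trans ?_)
            exact Nat.mul_le_mul (Nat.pow_le_pow_left (by omega) k) le_rfl
        _ = (2 * k + 2) ^ (k + 1) * H ^ (k + 1) := by ring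
  rw [hTT]
  exact key k

end Pool.Agent.N282.SR
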